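import Pool.Agent.MP_6a4325_al.H62.Base2

/-!
The Artin-Rees property for the augmentation ideal of an abelian normal subgroup of a polycyclic
group, through a Rees ring acting on finitely supported sequences.
-/

set_option autoImplicit false

namespace Pool.Agent.MP_6a4325_al.H60

open Pool.Agent.MP_6a4325_al.H62

section Ring

variable {k G S : Type} [Field k] [Group G] [Ring S] [Algebra k S]

/-- the Rees ring of the subgroup `L` -/
def RL (k : Type) [Field k] [Algebra k S] (r : G →* S) (τ : S) (E L : Subgroup G) :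
    Subalgebra k S :=
  Algebra.adjoin k ({x | ∃ g ∈ L, x = r g} ∪ {x | ∃ a ∈ E, x = τ * (r a - 1)})

variable {r : G →* S} {τ : S} {E : Subgroup G}

theorem r_mem {L : Subgroup G} {g : G} (hg : g ∈ L) : r g ∈ RL k r τ E L :=
  Algebra.subset_adjoin (Or.inl ⟨g, hg, rfl⟩)

theorem t_mem {L : Subgroup G} {a : G} (ha : a ∈ E) : τ * (r a - 1) ∈ RL k r τ E L :=
  Algebra.subset_adjoin (Or.inr ⟨a, ha, rfl⟩)

theorem RL_mono {L L' : Subgroup G} (h : L ≤ L') : RL k r τ E L ≤ RL k r τ E L' := by
  refine Algebra.adjoin_le ?_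
  rintro _ (⟨g, hg, rfl⟩ | ⟨a, ha, rfl⟩)
  · exact r_mem (h hg)
  · exact t_mem ha

theorem noeth_base (hτ : ∀ g, Commute τ (r g)) (hc : Cm E E) (hfg : E.FG) :
    IsNoetherianRing (RL k r τ E E) := by
  classical
  obtain ⟨T, hT⟩ := (Subgroup.fg_iff_submonoid_fg E).1 hfg
  have hTE : ∀ t ∈ T, t ∈ E := fun t ht => by
    have h1 : t ∈ E.toSubmonoid := hT ▸ Submonoid.subset_closure ht
    exact h1
  let s : Finset S := T.image r ∪ T.image fun a => τ * (r a - 1)
  have h1 : RL k r τ E E = Algebra.adjoin k (↑s : Set S) := by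
    apply le_antisymm
    · have key : ∀ a ∈ Submonoid.closure (↑T : Set G), r a ∈ Algebra.adjoin k (↑s : Set S) ∧
          τ * (r a - 1) ∈ Algebra.adjoin k (↑s : Set S) := fun a ha => by
        induction ha using Submonoid.closure_induction with
        | mem x hx =>
          exact ⟨Algebra.subset_adjoin (Finset.mem_union_left _ (Finset.mem_image_of_mem _ hx)),
            Algebra.subset_adjoin (Finset.mem_union_right _ (Finset.mem_image_of_mem _ hx))⟩
        | one =>
          rw [map_one, sub_self, mul_zero]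
          exact ⟨one_mem _, zero_mem _⟩
        | mul x y _ _ hx hy =>
          refine ⟨by rw [map_mul]; exact mul_mem hx.1 hy.1, ?_⟩
          have e : τ * (r (x * y) - 1) = r x * (τ * (r y - 1)) + τ * (r x - 1) := by
            rw [map_mul, ← mul_assoc (r x), ← (hτ x).eq]
            noncomm_ring
          rw [e]
          exact add_mem (mul_mem hx.1 hy.2) hx.2
      refine Algebra.adjoin_le ?_
      rintro _ (⟨g, hg, rfl⟩ | ⟨a, ha, rfl⟩)
      · exact (key g (hT ▸ hg)).1
      · exact (key a (hT ▸ ha)).2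
    · refine Algebra.adjoin_le fun x hx => ?_
      rcases Finset.mem_union.1 (Finset.mem_coe.1 hx) with h | h
      · obtain ⟨t, ht, rfl⟩ := Finset.mem_image.1 h
        exact r_mem (hTE t ht)
      · obtain ⟨t, ht, rfl⟩ := Finset.mem_image.1 h
        exact t_mem (hTE t ht)
  have hr : ∀ a ∈ E, ∀ b ∈ E, Commute (r a) (r b) := fun a ha b hb =>
    (show Commute a b from hc a ha b hb).map r
  have hrt : ∀ a ∈ E, ∀ b ∈ E, Commute (r a) (τ * (r b - 1)) := fun a ha b hb =>
    (hτ a).symm.mul_right ((hr a ha b hb).sub_right (Commute.one_right _))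
  have hcm : IsMulCommutative (RL k r τ E E) := by
    refine Algebra.isMulCommutative_adjoin k ?_
    rintro _ (⟨a, ha, rfl⟩ | ⟨a, ha, rfl⟩) _ (⟨b, hb, rfl⟩ | ⟨b, hb, rfl⟩)
    · exact hr a ha b hb
    · exact hrt a ha b hb
    · exact (hrt b hb a ha).symm
    · exact Commute.mul_left
        ((Commute.refl τ).mul_right ((hτ b).sub_right (Commute.one_right _)))
        ((hrt a ha b hb).sub_left (Commute.one_left _))
  have hft : Algebra.FiniteType k (RL k r τ E E) :=
    (Subalgebra.fg_iff_finiteType _).1 ⟨s, h1.symm⟩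
  let _ : CommRing (RL k r τ E E) :=
    { (inferInstance : Ring (RL k r τ E E)) with mul_comm := hcm.is_comm.comm }
  exact Algebra.FiniteType.isNoetherianRing k _

theorem conj_mem (hτ : ∀ g, Commute τ (r g)) (hE : E.Normal) {L : Subgroup G} {t : G}
    (ht : ∀ g ∈ L, t * g * t⁻¹ ∈ L) {x : S} (hx : x ∈ RL k r τ E L) :
    r t * x * r t⁻¹ ∈ RL k r τ E L := by
  have e1 : r t * r t⁻¹ = 1 := by rw [← map_mul, mul_inv_cancel, map_one]
  have e2 : r t⁻¹ * r t = 1 := by rw [← map_mul, inv_mul_cancel, map_one]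
  induction hx using Algebra.adjoin_induction with
  | mem x hx =>
    rcases hx with ⟨g, hg, rfl⟩ | ⟨a, ha, rfl⟩
    · rw [← map_mul, ← map_mul]
      exact r_mem (ht g hg)
    · have e : r t * (τ * (r a - 1)) * r t⁻¹ = τ * (r (t * a * t⁻¹) - 1) := by
        rw [map_mul, map_mul, ← mul_assoc (r t), ← (hτ t).eq, ← e1]
        nth_rewrite 1 [e1]
        noncomm_ring
      rw [e]
      exact t_mem (hE.conj_mem a ha t)
  | algebraMap c =>
    rw [← Algebra.commutes, mul_assoc, e1, mul_one]
    exact Subalgebra.algebraMap_mem _ c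
  | add x y _ _ hx hy =>
    rw [mul_add, add_mul]
    exact add_mem hx hy
  | mul x y _ _ hx hy =>
    have e : r t * (x * y) * r t⁻¹ = r t * x * r t⁻¹ * (r t * y * r t⁻¹) := by
      rw [mul_assoc (r t * x), ← mul_assoc (r t⁻¹), ← mul_assoc (r t⁻¹), e2, one_mul]
      simp only [mul_assoc]
    rw [e]
    exact mul_mem hx hy

theorem noeth_step (hS : SSkew) (hτ : ∀ g, Commute τ (r g)) (hE : E.Normal) {K K' : Subgroup G}
    (h : Cyc K K') (hK : IsNoetherianRing (RL k r τ E K)) :
    IsNoetherianRing (RL k r τ E K') := by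
  obtain ⟨hle, hn, t, ht, e⟩ := h
  let x : Sˣ := r.toHomUnits t
  have hx : (x : S) = r t := rfl
  have hx' : ((x⁻¹ : Sˣ) : S) = r t⁻¹ := by rw [← map_inv]; rfl
  have h1 := hS S (RL k r τ E K).toSubring x hK
    (fun y hy => by rw [hx, hx']; exact conj_mem hτ hE (hn t ht) hy)
    (fun y hy => by
      rw [hx, hx']
      have h2 := conj_mem (k := k) hτ hE (hn t⁻¹ (K'.inv_mem ht)) hy
      rwa [inv_inv] at h2)
  rw [hx, hx'] at h1
  have h3 : Subring.closure (((RL k r τ E K).toSubring : Set S) ∪ {r t, r t⁻¹}) =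
      (RL k r τ E K').toSubring := by
    apply le_antisymm
    · refine Subring.closure_le.2 ?_
      rintro y (hy | rfl | rfl)
      · exact RL_mono hle hy
      · exact r_mem ht
      · exact r_mem (K'.inv_mem ht)
    · set C := Subring.closure (((RL k r τ E K).toSubring : Set S) ∪ {r t, r t⁻¹}) with hC
      have hKC : ∀ y ∈ RL k r τ E K, y ∈ C := fun y hy => Subring.subset_closure (Or.inl hy)
      let D : Subgroup G :=
        { carrier := {g | r g ∈ C ∧ r g⁻¹ ∈ C}
          mul_mem' := fun {a b} ha hb =>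
            ⟨by rw [map_mul]; exact mul_mem ha.1 hb.1,
              by rw [mul_inv_rev, map_mul]; exact mul_mem hb.2 ha.2⟩
          one_mem' := ⟨by rw [map_one]; exact one_mem _, by rw [inv_one, map_one]; exact one_mem _⟩
          inv_mem' := fun {a} ha => ⟨ha.2, by rw [inv_inv]; exact ha.1⟩ }
      have hD : K' ≤ D := by
        rw [e]
        refine sup_le (fun g hg => ⟨hKC _ (r_mem hg), hKC _ (r_mem (K.inv_mem hg))⟩) ?_
        exact (Subgroup.zpowers_le).2 ⟨Subring.subset_closure (Or.inr (Or.inl rfl)),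
          Subring.subset_closure (Or.inr (Or.inr rfl))⟩
      intro y hy
      have hy' : y ∈ RL k r τ E K' := hy
      clear hy
      induction hy' using Algebra.adjoin_induction with
      | mem x hx =>
        rcases hx with ⟨g, hg, rfl⟩ | ⟨a, ha, rfl⟩
        · exact (hD hg).1
        · exact hKC _ (t_mem ha)
      | algebraMap c => exact hKC _ (Subalgebra.algebraMap_mem _ c)
      | add x y _ _ hx hy => exact add_mem hx hy
      | mul x y _ _ hx hy => exact mul_mem hx hy
  rw [h3] at h1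
  exact h1

theorem noeth_chain (hS : SSkew) (hτ : ∀ g, Commute τ (r g)) (hE : E.Normal) {n : ℕ}
    {H K : Subgroup G} (h : PCr n H K) (hH : IsNoetherianRing (RL k r τ E H)) :
    IsNoetherianRing (RL k r τ E K) := by
  induction h with
  | refl => exact hH
  | fin _ hc _ ih => exact noeth_step hS hτ hE hc (ih hH)
  | inf _ hc ih => exact noeth_step hS hτ hE hc (ih hH)

end Ring

section Mod

variable {k G M : Type} [Field k] [Group G] [AddCommGroup M] [Module k M]

/-- the coefficientwise action on finitely supported sequences -/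
noncomputable def rr (ρ : Representation k G M) : G →* Module.End k (ℕ →₀ M) where
  toFun g := Finsupp.mapRange.linearMap (ρ g)
  map_one' := by
    refine LinearMap.ext fun f => Finsupp.ext fun i => ?_
    simp
  map_mul' g h := by
    refine LinearMap.ext fun f => Finsupp.ext fun i => ?_
    simp

theorem rr_apply (ρ : Representation k G M) (g : G) (f : ℕ →₀ M) (i : ℕ) :
    rr ρ g f i = ρ g (f i) := rfl

/-- the shift -/
noncomputable def sh (k M : Type) [Field k] [AddCommGroup M] [Module k M] :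
    Module.End k (ℕ →₀ M) := Finsupp.lmapDomain M k Nat.succ

theorem sh_zero (f : ℕ →₀ M) : sh k M f 0 = 0 :=
  Finsupp.mapDomain_of_notMem_range f 0 (by simp)

theorem sh_succ (f : ℕ →₀ M) (i : ℕ) : sh k M f (i + 1) = f i :=
  Finsupp.mapDomain_apply Nat.succ_injective f i

theorem sh_comm (ρ : Representation k G M) (g : G) : Commute (sh k M) (rr ρ g) := by
  refine LinearMap.ext fun f => Finsupp.ext fun i => ?_
  rw [Module.End.mul_apply, Module.End.mul_apply, rr_apply]
  cases i with
  | zero => rw [sh_zero, sh_zero, map_zero]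
  | succ i => rw [sh_succ, sh_succ, rr_apply]

theorem tt_zero (ρ : Representation k G M) (a : G) (f : ℕ →₀ M) :
    (sh k M * (rr ρ a - 1)) f 0 = 0 := by
  rw [Module.End.mul_apply, sh_zero]

theorem tt_succ (ρ : Representation k G M) (a : G) (f : ℕ →₀ M) (i : ℕ) :
    (sh k M * (rr ρ a - 1)) f (i + 1) = ρ a (f i) - f i := by
  rw [Module.End.mul_apply, sh_succ, LinearMap.sub_apply, Finsupp.sub_apply, rr_apply]
  rfl

theorem inv_iter (ρ : Representation k G M) (E : Subgroup G) [E.Normal] {V : Submodule k M}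
    (hV : Inv ρ V) (i : ℕ) : Inv ρ ((aug ρ E)^[i] V) := by
  induction i with
  | zero => exact hV
  | succ i ih => rw [Function.iterate_succ_apply']; exact inv_aug ρ E ih

/-- the increasing chain of subspaces -/
def WW (ρ : Representation k G M) (E : Subgroup G) (V₀ V : Submodule k M) (n : ℕ) :
    Submodule k (ℕ →₀ M) where
  carrier := {f | ∀ i, f i ∈ V₀ ∧ f i ∈ (aug ρ E)^[i] V ∧ (n < i → f i ∈ aug ρ E V₀)}
  add_mem' := fun hf hg i => ⟨add_mem (hf i).1 (hg i).1, add_mem (hf i).2.1 (hg i).2.1,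
    fun h => add_mem ((hf i).2.2 h) ((hg i).2.2 h)⟩
  zero_mem' := fun _ => ⟨zero_mem _, zero_mem _, fun _ => zero_mem _⟩
  smul_mem' := fun c _ hf i => ⟨Submodule.smul_mem _ c (hf i).1,
    Submodule.smul_mem _ c (hf i).2.1, fun h => Submodule.smul_mem _ c ((hf i).2.2 h)⟩

theorem WW_stable (ρ : Representation k G M) (E : Subgroup G) [E.Normal] {V₀ V : Submodule k M}
    (h₀ : Inv ρ V₀) (hV : Inv ρ V) (n : ℕ) {s : Module.End k (ℕ →₀ M)}
    (hs : s ∈ RL k (rr ρ) (sh k M) E ⊤) : ∀ f ∈ WW ρ E V₀ V n, s f ∈ WW ρ E V₀ V n := by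
  induction hs using Algebra.adjoin_induction with
  | mem x hx =>
    rcases hx with ⟨g, _, rfl⟩ | ⟨a, ha, rfl⟩
    · exact fun f hf i => ⟨h₀ g _ (hf i).1, inv_iter ρ E hV i g _ (hf i).2.1,
        fun h => inv_aug ρ E h₀ g _ ((hf i).2.2 h)⟩
    · intro f hf i
      cases i with
      | zero =>
        rw [tt_zero]
        exact ⟨zero_mem _, zero_mem _, fun _ => zero_mem _⟩
      | succ i =>
        rw [tt_succ, Function.iterate_succ_apply']
        exact ⟨sub_mem (h₀ a _ (hf i).1) (hf i).1,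
          Submodule.subset_span ⟨a, ha, _, (hf i).2.1, rfl⟩,
          fun _ => Submodule.subset_span ⟨a, ha, _, (hf i).1, rfl⟩⟩
  | algebraMap c => exact fun f hf => Submodule.smul_mem _ c hf
  | add x y _ _ hx hy => exact fun f hf => add_mem (hx f hf) (hy f hf)
  | mul x y _ _ hx hy => exact fun f hf => hx _ (hy f hf)

theorem single_mem (ρ : Representation k G M) (E : Subgroup G) (T : Set M)
    (U : Submodule (RL k (rr ρ) (sh k M) E ⊤) (ℕ →₀ M))
    (hT : ∀ t ∈ T, Finsupp.single 0 t ∈ U) (i : ℕ) :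
    ∀ u ∈ (aug ρ E)^[i] (gen ρ T), Finsupp.single i u ∈ U := by
  have hsm : ∀ (c : k) (f : ℕ →₀ M), f ∈ U → c • f ∈ U := fun c f hf =>
    U.smul_mem ⟨_, Subalgebra.algebraMap_mem _ c⟩ hf
  have key : ∀ (j : ℕ) (X : Set M), (∀ x ∈ X, Finsupp.single j x ∈ U) →
      ∀ u ∈ Submodule.span k X, Finsupp.single j u ∈ U := fun j X hX u hu => by
    induction hu using Submodule.span_induction with
    | mem x hx => exact hX x hx
    | zero => rw [Finsupp.single_zero]; exact zero_mem _
    | add x y _ _ hx hy => rw [Finsupp.single_add]; exact add_mem hx hy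
    | smul c x _ hx => rw [← Finsupp.smul_single]; exact hsm c _ hx
  induction i with
  | zero =>
    refine key 0 _ ?_
    rintro _ ⟨g, t, ht, rfl⟩
    have e : Finsupp.single 0 (ρ g t) = rr ρ g (Finsupp.single 0 t) :=
      (Finsupp.mapRange_single (hf := map_zero _)).symm
    rw [e]
    exact U.smul_mem ⟨_, r_mem (Subgroup.mem_top g)⟩ (hT t ht)
  | succ i ih =>
    rw [Function.iterate_succ_apply']
    refine key (i + 1) _ ?_
    rintro _ ⟨a, ha, u, hu, rfl⟩
    have e : Finsupp.single (i + 1) (ρ a u - u) =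
        (sh k M * (rr ρ a - 1)) (Finsupp.single i u) := by
      refine Finsupp.ext fun j => ?_
      cases j with
      | zero => rw [tt_zero, Finsupp.single_eq_of_ne (Nat.succ_ne_zero i).symm]
      | succ j =>
        rw [tt_succ]
        by_cases hij : j = i
        · subst hij
          rw [Finsupp.single_eq_same, Finsupp.single_eq_same]
        · rw [Finsupp.single_eq_of_ne hij, Finsupp.single_eq_of_ne fun h => hij (Nat.succ.inj h),
            map_zero, sub_zero]
    rw [e]
    exact U.smul_mem ⟨_, t_mem ha⟩ (ih u hu)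

end Mod

theorem ar : SSkew → PCApi → SAR := by
  intro hS hP k G M _ _ _ _ ρ hG E hE hc T V₀ h₀ _
  obtain ⟨n, hn⟩ := hG
  have hN : IsNoetherianRing (RL k (rr ρ) (sh k M) E ⊤) :=
    noeth_chain hS (sh_comm ρ) hE (hP.rel n G E hE hn)
      (noeth_base (sh_comm ρ) hc (hP.fg G ⟨n, hn⟩ E))
  let U : Submodule (RL k (rr ρ) (sh k M) E ⊤) (ℕ →₀ M) :=
    Submodule.span _ ((fun t => Finsupp.single 0 t) '' (↑T : Set M))
  have hU : IsNoetherian (RL k (rr ρ) (sh k M) E ⊤) U :=
    @isNoetherian_span_of_finite (RL k (rr ρ) (sh k M) E ⊤) (ℕ →₀ M) _ _ _ hN _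
      (T.finite_toSet.image fun t => Finsupp.single 0 t)
  let W' : ℕ → Submodule (RL k (rr ρ) (sh k M) E ⊤) (ℕ →₀ M) := fun m =>
    { carrier := WW ρ E V₀ (gen ρ ↑T) m
      add_mem' := fun hf hg => add_mem hf hg
      zero_mem' := zero_mem _
      smul_mem' := fun s f hf => WW_stable ρ E h₀ (inv_gen ρ _) m s.2 f hf }
  let c : ℕ →o Submodule (RL k (rr ρ) (sh k M) E ⊤) U :=
    { toFun := fun m => (W' m).comap U.subtype
      monotone' := fun a b hab f hf i =>
        ⟨(hf i).1, (hf i).2.1, fun h => (hf i).2.2 (lt_of_le_of_lt hab h)⟩ }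
  obtain ⟨m, hm⟩ := monotone_stabilizes_iff_noetherian.2 hU c
  refine ⟨m + 1, fun u hu => ?_⟩
  have h1 : Finsupp.single (m + 1) u ∈ U :=
    single_mem ρ E _ U (fun t ht => Submodule.subset_span ⟨t, ht, rfl⟩) (m + 1) u hu.2
  have h2 : (⟨_, h1⟩ : U) ∈ c (m + 1) := fun i => by
    change Finsupp.single (m + 1) u i ∈ V₀ ∧ Finsupp.single (m + 1) u i ∈ _ ∧
      (_ → Finsupp.single (m + 1) u i ∈ _)
    by_cases hi : i = m + 1
    · subst hi
      rw [Finsupp.single_eq_same]
      exact ⟨hu.1, hu.2, fun h => absurd h (lt_irrefl _)⟩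
    · rw [Finsupp.single_eq_of_ne hi]
      exact ⟨zero_mem _, zero_mem _, fun _ => zero_mem _⟩
  rw [← hm (m + 1) (Nat.le_succ m)] at h2
  have h3 : Finsupp.single (m + 1) u (m + 1) ∈ aug ρ E V₀ := (h2 (m + 1)).2.2 (Nat.lt_succ_self m)
  rwa [Finsupp.single_eq_same] at h3

end Pool.Agent.MP_6a4325_al.H60
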