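import Pool.Agent.MP_6a4325_al.H62.Spec

/-!
Abelian-by-finite groups have property (Z).
-/

set_option autoImplicit false

namespace Pool.Agent.MP_6a4325_al.H60

open H62

/-- The lemma of Artin for a commutative ring without invariant ideals. -/
lemma artin {B G ι : Type} [CommRing B] [Nontrivial B] [Group G] [Fintype ι] (σ : G → B →+* B)
    (hm : ∀ g h b, σ (g * h) b = σ g (σ h b)) (A : Subgroup G) [A.FiniteIndex]
    (hA : ∀ a ∈ A, ∀ b, σ a b = b)
    (hs : ∀ I : Ideal B, (∀ g, ∀ b ∈ I, σ g b ∈ I) → I = ⊥ ∨ I = ⊤)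
    (hn : A.index < Fintype.card ι) (b : ι → B) :
    ∃ x : ι → B, (∃ j, x j = 1) ∧ (∀ g i, σ g (x i) = x i) ∧ ∑ i, x i * b i = 0 := by
  classical
  let W : Submodule B (ι → B) :=
    { carrier := {x | ∀ g, ∑ i, x i * σ g (b i) = 0}
      add_mem' := fun {x y} hx hy g => by
        simp only [Pi.add_apply, add_mul, Finset.sum_add_distrib, hx g, hy g, add_zero]
      zero_mem' := fun g => by simp
      smul_mem' := fun c x hx g => by
        simp only [Pi.smul_apply, smul_eq_mul, mul_assoc, ← Finset.mul_sum, hx g, mul_zero] }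
  have hW : ∀ g, ∀ x ∈ W, (fun i => σ g (x i)) ∈ W := fun g x hx h => by
    have := congrArg (σ g) (hx (g⁻¹ * h))
    simpa only [map_sum, map_mul, ← hm, mul_inv_cancel_left, map_zero] using this
  have h0 : ∃ x ∈ W, x ≠ 0 := by
    by_contra hc
    push Not at hc
    let _ := Fintype.ofFinite (G ⧸ A)
    let f : (ι → B) →ₗ[B] (G ⧸ A → B) := Matrix.mulVecLin (Matrix.of fun q i => σ q.out (b i))
    have := card_le_of_injective B f ((injective_iff_map_eq_zero f).2 fun x hx => hc x fun g => by
      obtain ⟨a, ha⟩ := QuotientGroup.mk_out_eq_mul A g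
      have h1 := congrFun hx (g : G ⧸ A)
      simp only [f, Matrix.mulVecLin_apply, Matrix.mulVec, dotProduct, Matrix.of_apply, ha, hm,
        hA a a.2, Pi.zero_apply] at h1
      simpa only [mul_comm] using h1)
    rw [← Nat.card_eq_fintype_card (α := G ⧸ A), ← Subgroup.index_eq_card] at this
    omega
  have key : ∀ s : Finset ι, ∀ x ∈ W, x ≠ 0 → (∀ i ∉ s, x i = 0) →
      ∃ x ∈ W, (∃ j, x j = 1) ∧ ∀ g i, σ g (x i) = x i := by
    intro s
    induction s using Finset.strongInduction with
    | H s ih =>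
    intro x hx x0 xs
    obtain ⟨j, hj⟩ := Function.ne_iff.1 x0
    have js : j ∈ s := by_contra fun h => hj (xs j h)
    let I : Ideal B :=
      { carrier := {c | ∃ y ∈ W, (∀ i ∉ s, y i = 0) ∧ y j = c}
        add_mem' := by
          rintro _ _ ⟨y, h1, h2, rfl⟩ ⟨z, h3, h4, rfl⟩
          exact ⟨y + z, add_mem h1 h3, fun i hi => by simp [h2 i hi, h4 i hi], rfl⟩
        zero_mem' := ⟨0, zero_mem _, fun _ _ => rfl, rfl⟩
        smul_mem' := by
          rintro c _ ⟨y, h1, h2, rfl⟩
          exact ⟨c • y, W.smul_mem c h1, fun i hi => by simp [h2 i hi], rfl⟩ }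
    have h1 : I = ⊤ := (hs I (by
      rintro g _ ⟨y, h1, h2, rfl⟩
      exact ⟨_, hW g y h1, fun i hi => by simp [h2 i hi], rfl⟩)).resolve_left fun e =>
        hj ((Ideal.mem_bot).1 (e ▸ (⟨x, hx, xs, rfl⟩ : x j ∈ I)))
    obtain ⟨y, y1, y2, y3⟩ : (1 : B) ∈ I := h1 ▸ Submodule.mem_top
    by_cases h : ∀ g, (fun i => σ g (y i)) - y = 0
    · exact ⟨y, y1, ⟨j, y3⟩, fun g i => sub_eq_zero.1 (congrFun (h g) i)⟩
    · push Not at h
      obtain ⟨g, hg⟩ := h
      refine ih _ (Finset.erase_ssubset js) _ (sub_mem (hW g y y1) y1) hg fun i hi => ?_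
      by_cases e : i = j
      · simp [e, y3]
      · simp [y2 i fun h => hi (Finset.mem_erase.2 ⟨e, h⟩)]
  obtain ⟨x, hx, x0⟩ := h0
  obtain ⟨y, y1, y2, y3⟩ := key Finset.univ x hx x0 (by simp)
  exact ⟨y, y2, y3, by simpa only [hA 1 A.one_mem] using y1 1⟩

open scoped IsMulCommutative in
lemma core {Z M G : Type} [Field Z] [AddCommGroup M] [Module Z M] [Nontrivial M] [Group G]
    (ρ : G →* Module.End Z M) (A : Subgroup G) [hN : A.Normal] [A.FiniteIndex]
    (hA : ∀ a ∈ A, ∀ b ∈ A, a * b = b * a)
    (hs : ∀ N : Submodule Z M, (∀ g, ∀ m ∈ N, ρ g m ∈ N) → N = ⊥ ∨ N = ⊤)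
    (hz : ∀ b ∈ Algebra.adjoin Z (ρ '' A), (∀ g, ρ g * b = b * ρ g) →
      ∃ z : Z, b = algebraMap Z _ z) : Module.Finite Z M := by
  classical
  let B := Algebra.adjoin Z (ρ '' A)
  have : IsMulCommutative B := Algebra.isMulCommutative_adjoin Z (by
    rintro _ ⟨a, ha, rfl⟩ _ ⟨b, hb, rfl⟩
    rw [← map_mul, hA a ha b hb, map_mul])
  have i1 : ∀ g, ρ g⁻¹ * ρ g = 1 := fun g => by rw [← map_mul, inv_mul_cancel, map_one]
  have i2 : ∀ g, ρ g * ρ g⁻¹ = 1 := fun g => by rw [← map_mul, mul_inv_cancel, map_one]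
  have hB : ∀ g, ∀ b ∈ B, ρ g * b * ρ g⁻¹ ∈ B := fun g b hb => by
    induction hb using Algebra.adjoin_induction with
    | mem _ h =>
      obtain ⟨a, ha, rfl⟩ := h
      exact Algebra.subset_adjoin ⟨_, hN.conj_mem a ha g, by simp only [map_mul]⟩
    | algebraMap z =>
      rw [← Algebra.commutes, mul_assoc, i2, mul_one]
      exact B.algebraMap_mem z
    | add x y _ _ hx hy => rw [mul_add, add_mul]; exact add_mem hx hy
    | mul x y _ _ hx hy =>
      have := mul_mem hx hy
      rwa [mul_assoc (ρ g * x), ← mul_assoc (ρ g⁻¹), ← mul_assoc (ρ g⁻¹), i1, one_mul,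
        ← mul_assoc, mul_assoc (ρ g)] at this
  let σ : G → B →+* B := fun g =>
    { toFun := fun b => ⟨_, hB g b b.2⟩
      map_one' := Subtype.ext (by simp [i2])
      map_mul' := fun x y => Subtype.ext (by
        change ρ g * (x * y) * ρ g⁻¹ = ρ g * x * ρ g⁻¹ * (ρ g * y * ρ g⁻¹)
        rw [mul_assoc (ρ g * x) (ρ g⁻¹), ← mul_assoc (ρ g⁻¹), ← mul_assoc (ρ g⁻¹), i1, one_mul]
        simp only [mul_assoc])
      map_zero' := Subtype.ext (by simp)
      map_add' := fun x y => Subtype.ext (by simp [mul_add, add_mul]) }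
  have hσ : ∀ g (b : B) (m : M), ρ g (b • m) = σ g b • ρ g m := fun g b m => by
    change (ρ g * b) m = (ρ g * b * ρ g⁻¹ * ρ g) m
    rw [mul_assoc _ (ρ g⁻¹), i1, mul_one]
  have st : ∀ N : Submodule B M, (∀ g, ∀ m ∈ N, ρ g m ∈ N) → N = ⊥ ∨ N = ⊤ := fun N h =>
    (hs (N.restrictScalars Z) h).imp (Submodule.restrictScalars_eq_bot_iff Z B M).1
      (Submodule.restrictScalars_eq_top_iff Z B M).1
  obtain ⟨m0, h0⟩ := exists_ne (0 : M)
  have out : ∀ g : G, ρ g m0 ∈ Submodule.span B (Set.range fun q : G ⧸ A => ρ q.out m0) :=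
    fun g => by
      obtain ⟨a, ha⟩ := QuotientGroup.mk_out_eq_mul A g
      have h1 := Submodule.smul_mem _ (⟨ρ (g * (a : G)⁻¹ * g⁻¹), Algebra.subset_adjoin
        ⟨_, hN.conj_mem _ (inv_mem a.2) g, rfl⟩⟩ : B) (Submodule.subset_span
          (R := B) (s := Set.range fun q : G ⧸ A => ρ q.out m0) ⟨(g : G ⧸ A), rfl⟩)
      change (ρ _ * ρ _) m0 ∈ _ at h1
      rwa [← map_mul, ha, mul_assoc, inv_mul_cancel_left, inv_mul_cancel_right] at h1
  have fg : (⊤ : Submodule B M).FG := by
    refine ⟨(Set.finite_range fun q : G ⧸ A => ρ q.out m0).toFinset, ?_⟩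
    rw [Set.Finite.coe_toFinset]
    refine (st _ fun g m hm => ?_).resolve_left fun e => h0 ?_
    · induction hm using Submodule.span_induction with
      | mem _ h =>
        obtain ⟨q, rfl⟩ := h
        have := out (g * q.out)
        rwa [map_mul] at this
      | zero => simp
      | add x y _ _ hx hy => rw [map_add]; exact add_mem hx hy
      | smul b x _ hx => rw [hσ]; exact Submodule.smul_mem _ _ hx
    · simpa [e] using out 1
  have hI : ∀ I : Ideal B, (∀ g, ∀ b ∈ I, σ g b ∈ I) → I = ⊥ ∨ I = ⊤ := fun I h => by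
    refine (st (I • ⊤) fun g m hm => ?_).imp (fun e => ?_) fun e => ?_
    · refine Submodule.smul_induction_on hm (fun b hb x _ => ?_) fun x y hx hy => ?_
      · rw [hσ]; exact Submodule.smul_mem_smul (h g b hb) Submodule.mem_top
      · rw [map_add]; exact add_mem hx hy
    · refine eq_bot_iff.2 fun b hb => Subtype.ext (LinearMap.ext fun m => ?_)
      have := Submodule.smul_mem_smul (N := (⊤ : Submodule B M)) hb (Submodule.mem_top (x := m))
      rw [e] at this
      exact this
    · obtain ⟨r, h1, h2⟩ :=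
        Submodule.exists_sub_one_mem_and_smul_eq_zero_of_fg_of_le_smul I ⊤ fg e.ge
      have h3 : r = 0 := Subtype.ext (LinearMap.ext fun m => h2 m Submodule.mem_top)
      rw [h3, zero_sub, neg_mem_iff] at h1
      exact (Ideal.eq_top_iff_one I).2 h1
  have : Module.Finite Z B := by
    rw [← Module.rank_lt_aleph0_iff]
    refine (rank_le (n := A.index) fun s hs => not_lt.1 fun hn => ?_).trans_lt
      Cardinal.natCast_lt_aleph0
    obtain ⟨x, ⟨j, x1⟩, x2, x3⟩ := artin (ι := s) σ
      (fun g h b => Subtype.ext (by simp only [σ, RingHom.coe_mk, MonoidHom.coe_mk, OneHom.coe_mk,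
        map_mul, mul_inv_rev, mul_assoc])) A
      (fun a ha b => Subtype.ext (by
        have := congrArg Subtype.val (mul_comm (⟨ρ a, Algebra.subset_adjoin ⟨a, ha, rfl⟩⟩ : B) b)
        change ρ a * b * ρ a⁻¹ = b
        rw [show ρ a * b = b * ρ a from this, mul_assoc, i2, mul_one])) hI (by simpa using hn)
      fun i => i.1
    choose z hz' using fun i => hz (x i) (x i).2 fun g => by
      have : ρ g * x i * ρ g⁻¹ = x i := congrArg Subtype.val (x2 g i)
      conv_rhs => rw [← this, mul_assoc, i1, mul_one]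
    have h1 : ∀ i, x i = algebraMap Z B (z i) := fun i => Subtype.ext (hz' i)
    have h2 := Fintype.linearIndependent_iff.1 hs z (by
      simpa only [h1, Algebra.smul_def] using x3) j
    rw [h1, h2, map_zero] at x1
    exact zero_ne_one x1
  have : Module.Finite B M := ⟨fg⟩
  exact Module.Finite.trans B M

theorem conv : SConv := by
  intro F G _ _ ⟨A, hN, hF, hA⟩ M _ _ hM
  have := IsSimpleModule.nontrivial (MonoidAlgebra F G) M
  let R := MonoidAlgebra F G
  let E := Module.End R M
  let Z := Subring.center E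
  have hZ : IsField Z :=
    { exists_pair_ne := ⟨0, 1, zero_ne_one⟩
      mul_comm := mul_comm
      mul_inv_cancel := fun {a} ha => by
        obtain ⟨u, hu⟩ := (Module.End.isUnit_iff a.1).2
          (LinearMap.bijective_of_ne_zero fun e => ha (Subtype.ext e))
        exact ⟨⟨u⁻¹.val, Subring.mem_center_iff.2 fun g =>
          (Commute.units_inv_right (hu ▸ Subring.mem_center_iff.1 a.2 g)).eq⟩,
          Subtype.ext (by simp [← hu])⟩ }
  let ρ : G →* Module.End Z M :=
    { toFun := fun g =>
        { toFun := fun m => MonoidAlgebra.of F G g • m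
          map_add' := smul_add _
          map_smul' := fun z m => (z.1.map_smul _ m).symm }
      map_one' := LinearMap.ext fun m => by
        change MonoidAlgebra.of F G 1 • m = m
        rw [map_one, one_smul]
      map_mul' := fun g h => LinearMap.ext fun m => by
        change MonoidAlgebra.of F G (g * h) • m = _
        rw [map_mul, mul_smul]
        rfl }
  let sc : F → Z := fun c =>
    ⟨{ toFun := fun m => algebraMap F R c • m
       map_add' := smul_add _
       map_smul' := fun r m => by
         simp only [← mul_smul, Algebra.commutes, RingHom.id_apply] },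
      Subring.mem_center_iff.2 fun f => LinearMap.ext fun m => f.map_smul _ m⟩
  have hsc : ∀ (c : F) (r : R) (m : M), (c • r) • m = sc c • r • m := fun c r m => by
    rw [Algebra.smul_def, mul_smul]
    rfl
  refine @core Z M G hZ.toField _ _ _ _ ρ A hN hF hA (fun N h => ?_) fun b hb h => ?_
  · have := eq_bot_or_eq_top
      ({ carrier := N
         add_mem' := N.add_mem
         zero_mem' := N.zero_mem
         smul_mem' := fun r m hm => by
           induction r using MonoidAlgebra.induction_on with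
           | of g => exact h g m hm
           | add x y hx hy => rw [add_smul]; exact N.add_mem hx hy
           | smul c x hx => rw [hsc]; exact N.smul_mem _ hx } : Submodule R M)
    refine this.imp (fun e => SetLike.ext fun m => ?_) fun e => SetLike.ext fun m => ?_
    · exact SetLike.ext_iff.1 e m
    · exact SetLike.ext_iff.1 e m
  · have h1 : ∀ (f : E) (m : M), f (b m) = b (f m) := fun f => by
      clear h
      induction hb using Algebra.adjoin_induction with
      | mem _ h =>
        obtain ⟨a, -, rfl⟩ := h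
        exact fun m => f.map_smul _ m
      | algebraMap z => exact fun m => LinearMap.congr_fun (Subring.mem_center_iff.1 z.2 f) m
      | add x y _ _ hx hy => exact fun m => by simp [hx m, hy m]
      | mul x y _ _ hx hy => exact fun m => by simp [hx, hy]
    refine ⟨⟨{ toFun := b
               map_add' := b.map_add
               map_smul' := fun r m => ?_ }, Subring.mem_center_iff.2 fun f =>
      LinearMap.ext fun m => h1 f m⟩, LinearMap.ext fun m => rfl⟩
    induction r using MonoidAlgebra.induction_on with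
    | of g => exact (LinearMap.congr_fun (h g) m).symm
    | add x y hx hy => simp only [add_smul, map_add, RingHom.id_apply] at *; rw [hx, hy]
    | smul c x hx => simp only [RingHom.id_apply] at *; rw [hsc, hsc, b.map_smul, hx]

end Pool.Agent.MP_6a4325_al.H60
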